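import Mathlib

/-!
Blind robots (MP_708370_co): the abstract gravity argument.

A finite set `X` of states with a height `rk`, a set `A` of letters acting on `X`. The letters in
`up` either do nothing or raise the height by exactly one, all the other letters never raise it,
and every move can be undone by some letter.

Formalisation: helper50.
-/

set_option autoImplicit false

namespace Pool.Agent.BR

section Defs

variable {X A : Type*} (st : X → A → X) (rk : X → ℤ)

/-- One step inside the part of height at most `h`. -/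
def R (h : ℤ) (x y : X) : Prop := (∃ a, st x a = y) ∧ rk x ≤ h ∧ rk y ≤ h

/-- `x` and `y` are connected inside the part of height at most `h`. -/
def C (h : ℤ) (x y : X) : Prop := rk x ≤ h ∧ Relation.ReflTransGen (R st rk h) x y

/-- `x` lies in a pit with bottom `B` and top `h`. -/
def Pit (B h : ℤ) (x : X) : Prop :=
  (∀ y, C st rk h x y → B ≤ rk y) ∧ ∃ y, C st rk h x y ∧ rk y = B

/-- The run of the word from `x` stays at height at most `h`. -/
def Stay (h : ℤ) : X → List A → Prop
  | x, [] => rk x ≤ h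
  | x, a :: w => rk x ≤ h ∧ Stay h (st x a) w

/-- The word never leaves a pit with at least `J` levels through its top. -/
def T (J : ℕ) (w : List A) : Prop :=
  ∀ (B h : ℤ) (x : X), (J : ℤ) ≤ h - B + 1 → Pit st rk B h x → Stay st rk h x w

/-- No lower state can be reached below the level `rk x + J`. -/
def Stable (J : ℕ) (x : X) : Prop := ∀ y, C st rk (rk x + J - 1) x y → rk x ≤ rk y

/-- The hypotheses on the action. -/
structure Graded (up : A → Prop) : Prop where
  up_step : ∀ x a, up a → st x a = x ∨ rk (st x a) = rk x + 1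
  free_step : ∀ x a, ¬ up a → rk (st x a) ≤ rk x
  undo : ∀ x a, ∃ b, st (st x a) b = x

end Defs

section

variable {X A : Type*} {st : X → A → X} {rk : X → ℤ} {up : A → Prop}

theorem C.refl {h : ℤ} {x : X} (hx : rk x ≤ h) : C st rk h x x := ⟨hx, .refl⟩

theorem C.trans {h : ℤ} {x y z : X} (h1 : C st rk h x y) (h2 : C st rk h y z) : C st rk h x z :=
  ⟨h1.1, h1.2.trans h2.2⟩

theorem C.right {h : ℤ} {x y : X} (h1 : C st rk h x y) : rk y ≤ h := by
  rcases Relation.ReflTransGen.cases_tail h1.2 with e | ⟨z, _, hz⟩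
  · rw [e]; exact h1.1
  · exact hz.2.2

theorem C.mono {h h' : ℤ} (hh : h ≤ h') {x y : X} (h1 : C st rk h x y) : C st rk h' x y := by
  refine ⟨h1.1.trans hh, ?_⟩
  obtain ⟨_, h1⟩ := h1
  induction h1 with
  | refl => exact .refl
  | tail _ h2 ih => exact ih.tail ⟨h2.1, h2.2.1.trans hh, h2.2.2.trans hh⟩

theorem C.symm (hG : Graded st rk up) {h : ℤ} {x y : X} (h1 : C st rk h x y) : C st rk h y x := by
  refine ⟨h1.right, ?_⟩
  obtain ⟨_, h1⟩ := h1
  induction h1 with
  | refl => exact .refl
  | tail _ h2 ih =>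
    obtain ⟨⟨c, rfl⟩, h2, h3⟩ := h2
    obtain ⟨d, hd⟩ := hG.undo _ c
    exact Relation.ReflTransGen.head ⟨⟨d, hd⟩, h3, h2⟩ ih

theorem C.step {h : ℤ} {x y : X} (h1 : C st rk h x y) (a : A) (h2 : rk (st y a) ≤ h) :
    C st rk h x (st y a) :=
  ⟨h1.1, h1.2.tail ⟨⟨a, rfl⟩, h1.right, h2⟩⟩

theorem Pit.of_C (hG : Graded st rk up) {B h : ℤ} {x y : X} (hp : Pit st rk B h x)
    (h1 : C st rk h x y) : Pit st rk B h y := by
  refine ⟨fun z hz => hp.1 z (h1.trans hz), ?_⟩
  obtain ⟨z, hz, e⟩ := hp.2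
  exact ⟨z, (h1.symm hG).trans hz, e⟩

theorem Pit.le {B h : ℤ} {x : X} (hp : Pit st rk B h x) : B ≤ h := by
  obtain ⟨z, hz, e⟩ := hp.2
  rw [← e]; exact hz.right

theorem Pit.le_top {B h : ℤ} {x : X} (hp : Pit st rk B h x) : rk x ≤ h := by
  obtain ⟨z, hz, e⟩ := hp.2
  exact hz.1

theorem Pit.bot_le {B h : ℤ} {x : X} (hp : Pit st rk B h x) : B ≤ rk x :=
  hp.1 x (C.refl hp.le_top)

theorem Pit.refl {B h : ℤ} {x : X} (hp : Pit st rk B h x) : C st rk h x x := C.refl hp.le_top

/-- Every state lies in some pit with the given top, if `X` is finite. -/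
theorem exists_pit [Finite X] {h : ℤ} {x : X} (hx : rk x ≤ h) : ∃ B, Pit st rk B h x ∧ B ≤ rk x := by
  have hne : {y | C st rk h x y}.Nonempty := ⟨x, C.refl hx⟩
  obtain ⟨z, hz, hmin⟩ := Set.exists_min_image {y | C st rk h x y} rk (Set.toFinite _) hne
  exact ⟨rk z, ⟨fun y hy => hmin y hy, z, hz, rfl⟩, hmin x (C.refl hx)⟩

theorem stay_top {h : ℤ} : ∀ {x : X} {w : List A}, Stay st rk h x w → rk x ≤ h
  | _, [], hs => hs
  | _, _ :: _, hs => hs.1

theorem stay_append {h : ℤ} : ∀ {x : X} {w v : List A},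
    Stay st rk h x (w ++ v) ↔ Stay st rk h x w ∧ Stay st rk h (w.foldl st x) v
  | x, [], v => by
    constructor
    · intro hs
      exact ⟨stay_top hs, hs⟩
    · intro hs
      exact hs.2
  | x, a :: w, v => by
    have := stay_append (h := h) (x := st x a) (w := w) (v := v)
    constructor
    · rintro ⟨h1, h2⟩
      obtain ⟨h3, h4⟩ := this.1 h2
      exact ⟨⟨h1, h3⟩, h4⟩
    · rintro ⟨⟨h1, h2⟩, h3⟩
      exact ⟨h1, this.2 ⟨h2, h3⟩⟩

theorem stay_mono {h h' : ℤ} (hh : h ≤ h') : ∀ {x : X} {w : List A}, Stay st rk h x w →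
    Stay st rk h' x w
  | _, [], hs => le_trans (show rk _ ≤ h from hs) hh
  | _, _ :: _, hs => ⟨hs.1.trans hh, stay_mono hh hs.2⟩

theorem stay_C {h : ℤ} : ∀ {x : X} {w : List A}, Stay st rk h x w → C st rk h x (w.foldl st x)
  | _, [], hs => C.refl hs
  | x, a :: w, hs => by
    have h1 : C st rk h x (st x a) := (C.refl hs.1).step a (stay_top hs.2)
    exact h1.trans (stay_C hs.2)

theorem T.nil {J : ℕ} : T st rk J [] := fun _ _ _ _ hp => hp.le_top

theorem T.append (hG : Graded st rk up) {J : ℕ} {w v : List A} (h1 : T st rk J w)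
    (h2 : T st rk J v) : T st rk J (w ++ v) := by
  intro B h x hJ hp
  have h3 := h1 B h x hJ hp
  exact stay_append.2 ⟨h3, h2 B h _ hJ (hp.of_C hG (stay_C h3))⟩

theorem T.mono {J J' : ℕ} (hJ : J ≤ J') {w : List A} (h1 : T st rk J w) : T st rk J' w :=
  fun B h x h2 hp => h1 B h x (le_trans (by exact_mod_cast hJ) h2) hp

theorem T.free (hG : Graded st rk up) {J : ℕ} {a : A} (ha : ¬ up a) : T st rk J [a] :=
  fun _ _ x _ hp => ⟨hp.le_top, (hG.free_step x a ha).trans hp.le_top⟩

theorem T.pit (hG : Graded st rk up) {J : ℕ} {w : List A} (h1 : T st rk J w) {B h : ℤ} {x : X}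
    (hJ : (J : ℤ) ≤ h - B + 1) (hp : Pit st rk B h x) : Pit st rk B h (w.foldl st x) :=
  hp.of_C hG (stay_C (h1 B h x hJ hp))

theorem T.conn {J : ℕ} {w : List A} (h1 : T st rk J w) {B h : ℤ} {x : X}
    (hJ : (J : ℤ) ≤ h - B + 1) (hp : Pit st rk B h x) : C st rk h x (w.foldl st x) :=
  stay_C (h1 B h x hJ hp)

/-- The position of the stable states in a pit. -/
theorem stable_pos {J : ℕ} {B h : ℤ} {x : X} (hp : Pit st rk B h x) (hs : Stable st rk J x) :
    rk x ≤ B ∨ rk x + J ≤ h := by
  by_contra hcon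
  push Not at hcon
  obtain ⟨y, hy, e⟩ := hp.2
  have := hs y (hy.mono (by omega))
  omega

theorem Stable.pit {J : ℕ} (hJ : 1 ≤ J) {x : X} (hs : Stable st rk J x) :
    Pit st rk (rk x) (rk x + J - 1) x :=
  ⟨hs, x, C.refl (by omega), rfl⟩

/-- The basic construction. -/
theorem T.climb (hG : Graded st rk up) {i : ℕ} (hi : 1 ≤ i) {W s : List A} (hW : T st rk i W)
    (hst : ∀ (B h : ℤ) (x : X), (i : ℤ) ≤ h - B + 1 → Pit st rk B h x →
      Stable st rk i (W.foldl st x)) (hs : T st rk i s) (a : A) : T st rk (i + 1) (W ++ s ++ [a]) := by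
  intro B h x hJ hp
  push_cast at hJ
  have hi' : (i : ℤ) ≤ h - B + 1 := by omega
  have h1 := hW B h x hi' hp
  have h2 := hst B h x hi' hp
  have h3 := stable_pos (hp.of_C hG (stay_C h1)) h2
  have h4 : rk (W.foldl st x) + i ≤ h := by omega
  have h5 := hs (rk (W.foldl st x)) (rk (W.foldl st x) + i - 1) (W.foldl st x) (by omega)
    (h2.pit hi)
  refine stay_append.2 ⟨stay_append.2 ⟨h1, stay_mono (by omega) h5⟩, ?_⟩
  rw [List.foldl_append]
  have h6 := (stay_C h5).right
  refine ⟨by omega, ?_⟩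
  by_cases ha : up a
  · rcases hG.up_step (s.foldl st (W.foldl st x)) a ha with e | e
    · show rk _ ≤ h
      rw [e]; omega
    · show rk _ ≤ h
      omega
  · have := hG.free_step (s.foldl st (W.foldl st x)) a ha
    show rk _ ≤ h
    omega

/-- The two claims of the induction. -/
def Claim (st : X → A → X) (rk : X → ℤ) (J : ℕ) : Prop :=
  (∀ (B h : ℤ) (x z : X), h - B + 1 = J → Pit st rk B h x → C st rk h x z →
    ∃ w, T st rk J w ∧ w.foldl st x = z) ∧
  ∃ W, T st rk J W ∧ ∀ (B h : ℤ) (x : X), (J : ℤ) ≤ h - B + 1 → Pit st rk B h x →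
    Stable st rk J (W.foldl st x)

/-- Going up inside a pit with few levels. -/
theorem up_move [Finite X] (hG : Graded st rk up) {J : ℕ} (ih : ∀ i ≤ J, Claim st rk i) {h' : ℤ}
    {y : X} (hy : rk y ≤ h') {B' : ℤ} (hp : Pit st rk B' h' y) (hB : h' - B' + 1 ≤ J) (a : A) :
    ∃ s, T st rk (J + 1) s ∧ s.foldl st y = st y a := by
  have h1 := hp.le
  obtain ⟨i, hi⟩ : ∃ i : ℕ, (i : ℤ) = h' - B' + 1 := ⟨(h' - B' + 1).toNat, by omega⟩
  have hi1 : 1 ≤ i := by omega
  have hiJ : i ≤ J := by omega
  obtain ⟨c1, W, hW, hst⟩ := ih i hiJ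
  have hq := hW.pit hG (by omega) hp
  have hq' := hW.conn (by omega) hp
  obtain ⟨s, hs, e⟩ := c1 B' h' (W.foldl st y) y (by omega) hq (hq'.symm hG)
  refine ⟨W ++ s ++ [a], (T.climb hG hi1 hW hst hs a).mono (by omega), ?_⟩
  rw [List.foldl_append, List.foldl_append, e]
  rfl

theorem claim_succ_conn [Finite X] (hG : Graded st rk up) {J : ℕ} (ih : ∀ i ≤ J, Claim st rk i)
    (B h : ℤ) (x z : X) (hJ : h - B + 1 = (J + 1 : ℕ)) (hp : Pit st rk B h x)
    (hz : C st rk h x z) : ∃ w, T st rk (J + 1) w ∧ w.foldl st x = z := by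
  obtain ⟨hx, hz⟩ := hz
  push_cast at hJ
  induction hz with
  | refl => exact ⟨[], T.nil, rfl⟩
  | @tail y y' hy hyy' ihy =>
    obtain ⟨w, hw, e⟩ := ihy
    obtain ⟨⟨a, rfl⟩, h1, h2⟩ := hyy'
    by_cases ha : up a
    · rcases hG.up_step y a ha with e' | e'
      · exact ⟨w, hw, by rw [e, e']⟩
      · obtain ⟨B', hp', hB'⟩ := exists_pit (st := st) (rk := rk) (h := h - 1) (x := y) (by omega)
        have hBB : B ≤ B' := by
          obtain ⟨v, hv, hv'⟩ := hp'.2
          rw [← hv']
          exact hp.1 v (C.trans ⟨hx, hy⟩ (hv.mono (by omega)))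
        obtain ⟨s, hs, es⟩ := up_move hG ih (by omega) hp' (by omega) a
        exact ⟨w ++ s, hw.append hG hs, by rw [List.foldl_append, e, es]⟩
    · exact ⟨w ++ [a], hw.append hG (T.free hG ha), by rw [List.foldl_append, e]; rfl⟩

/-- From a `J`-stable state which is not `(J+1)`-stable one can get lower. -/
theorem lower [Finite X] (hG : Graded st rk up) {J : ℕ} (ih : ∀ i ≤ J, Claim st rk i) (u : X)
    (hn : ¬ Stable st rk (J + 1) u) : ∃ s, T st rk (J + 1) s ∧ rk (s.foldl st u) < rk u := by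
  obtain ⟨_, W, hW, hst⟩ := ih J le_rfl
  unfold Stable at hn
  push Not at hn
  obtain ⟨y0, hy0, hlt⟩ := hn
  push_cast at hy0
  have e0 : rk u + ((J : ℤ) + 1) - 1 = rk u + J := by ring
  rw [e0] at hy0
  have key : ∀ y, C st rk (rk u + J) u y → (∃ s, T st rk (J + 1) s ∧ rk (s.foldl st u) < rk u) ∨
      ∃ s, T st rk (J + 1) s ∧ s.foldl st u = y := by
    rintro y ⟨hu, hy⟩
    induction hy with
    | refl => exact Or.inr ⟨[], T.nil, rfl⟩
    | @tail y y' hy hyy' ihy =>
      rcases ihy with ihy | ⟨w, hw, e⟩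
      · exact Or.inl ihy
      · obtain ⟨⟨a, rfl⟩, h1, h2⟩ := hyy'
        by_cases hlow : rk y < rk u
        · exact Or.inl ⟨w, hw, by rw [e]; exact hlow⟩
        by_cases ha : up a
        · rcases hG.up_step y a ha with e' | e'
          · exact Or.inr ⟨w, hw, by rw [e, e']⟩
          · obtain ⟨B', hp', hB'⟩ := exists_pit (st := st) (rk := rk) (h := rk u + J - 1) (x := y)
              (by omega)
            by_cases hBB : rk u ≤ B'
            · obtain ⟨s, hs, es⟩ := up_move hG ih (by omega) hp' (by omega) a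
              exact Or.inr ⟨w ++ s, hw.append hG hs, by rw [List.foldl_append, e, es]⟩
            · refine Or.inl ⟨w ++ W, hw.append hG (hW.mono (by omega)), ?_⟩
              rw [List.foldl_append, e]
              have h3 := hst B' _ y (by omega) hp'
              have h4 := stable_pos (hW.pit hG (by omega) hp') h3
              omega
        · exact Or.inr ⟨w ++ [a], hw.append hG (T.free hG ha), by rw [List.foldl_append, e]; rfl⟩
  rcases key y0 hy0 with h | ⟨s, hs, e⟩
  · exact h
  · exact ⟨s, hs, by rw [e]; exact hlt⟩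

/-- Every state of a pit with at least `J + 1` levels can be led into a pit with exactly `J + 1`
levels. -/
theorem lead [Finite X] (hG : Graded st rk up) {J : ℕ} (ih : ∀ i ≤ J, Claim st rk i) {B h : ℤ}
    (hJ : (J : ℤ) + 1 ≤ h - B + 1) : ∀ (n : ℕ) (u : X), Pit st rk B h u → Stable st rk J u →
    rk u - B ≤ n → ∃ s, T st rk (J + 1) s ∧ ∃ B' h', h' - B' + 1 = (J : ℤ) + 1 ∧
      Pit st rk B' h' (s.foldl st u) := by
  obtain ⟨_, W, hW, hst⟩ := ih J le_rfl
  have done : ∀ u, Pit st rk B h u → Stable st rk (J + 1) u → ∃ s, T st rk (J + 1) s ∧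
      ∃ B' h', h' - B' + 1 = (J : ℤ) + 1 ∧ Pit st rk B' h' (s.foldl st u) := by
    intro u _ hu
    refine ⟨[], T.nil, rk u, rk u + J, by ring, ?_⟩
    have := hu.pit (by omega)
    push_cast at this
    have e0 : rk u + ((J : ℤ) + 1) - 1 = rk u + J := by ring
    rw [e0] at this
    exact this
  intro n
  induction n with
  | zero =>
    intro u hp _ hn
    refine done u hp ?_
    intro y hy
    have h1 : C st rk h u y := hy.mono (by push_cast at hn ⊢; omega)
    have := hp.1 y h1
    push_cast at hn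
    omega
  | succ n ihn =>
    intro u hp hs hn
    by_cases hu : Stable st rk (J + 1) u
    · exact done u hp hu
    · obtain ⟨s, hT, hlt⟩ := lower hG ih u hu
      have hJ' : ((J + 1 : ℕ) : ℤ) ≤ h - B + 1 := by push_cast; omega
      have hp1 := hT.pit hG hJ' hp
      have hpos := stable_pos hp hs
      have hb := hp.bot_le
      obtain ⟨B', hp', hB'⟩ := exists_pit (st := st) (rk := rk) (h := rk u + J - 1)
        (x := s.foldl st u) (by omega)
      have h3 := hst B' _ _ (by omega) hp'
      have h4 := stable_pos (hW.pit hG (by omega) hp') h3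
      have hp2 := hW.pit hG (by omega) hp1
      obtain ⟨s', hT', B2, h2, e2, hp3⟩ := ihn _ hp2 h3 (by push_cast at hn; omega)
      refine ⟨s ++ W ++ s', (hT.append hG (hW.mono (by omega))).append hG hT', B2, h2, e2, ?_⟩
      rw [List.foldl_append, List.foldl_append]
      exact hp3

theorem claim_succ_stable [Finite X] (hG : Graded st rk up) {J : ℕ}
    (ih : ∀ i ≤ J, Claim st rk i) : ∃ W, T st rk (J + 1) W ∧ ∀ (B h : ℤ) (x : X),
      ((J + 1 : ℕ) : ℤ) ≤ h - B + 1 → Pit st rk B h x → Stable st rk (J + 1) (W.foldl st x) := by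
  classical
  obtain ⟨_, W, hW, hst⟩ := ih J le_rfl
  have key : ∀ S : Finset X, ∃ V, T st rk (J + 1) V ∧ ∀ x ∈ S, (∃ B h : ℤ,
      (J : ℤ) + 1 ≤ h - B + 1 ∧ Pit st rk B h x) → ∃ B' h', h' - B' + 1 = (J : ℤ) + 1 ∧
      Pit st rk B' h' (V.foldl st x) := by
    intro S
    induction S using Finset.induction_on with
    | empty => exact ⟨[], T.nil, fun x hx => by simp at hx⟩
    | insert x0 S hx0 ihS =>
      obtain ⟨V, hV, hS⟩ := ihS
      by_cases hx : ∃ B h : ℤ, (J : ℤ) + 1 ≤ h - B + 1 ∧ Pit st rk B h x0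
      · obtain ⟨B, h, hJ, hp⟩ := hx
        have hJ' : ((J + 1 : ℕ) : ℤ) ≤ h - B + 1 := by push_cast; omega
        have hp1 := hV.pit hG hJ' hp
        have hp2 := hW.pit hG (by omega) hp1
        have h3 := hst B h _ (by omega) hp1
        obtain ⟨s, hs, hs'⟩ := lead hG ih hJ (rk (W.foldl st (V.foldl st x0)) - B).toNat _ hp2 h3
          (by omega)
        refine ⟨V ++ W ++ s, (hV.append hG (hW.mono (by omega))).append hG hs, ?_⟩
        intro x hxS hex
        rw [List.foldl_append, List.foldl_append]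
        rcases Finset.mem_insert.1 hxS with rfl | hxS
        · exact hs'
        · obtain ⟨B', h', e', hp'⟩ := hS x hxS hex
          refine ⟨B', h', e', ?_⟩
          exact hs.pit hG (by push_cast; omega) (hW.pit hG (by omega) hp')
      · refine ⟨V, hV, fun x hxS hex => ?_⟩
        rcases Finset.mem_insert.1 hxS with rfl | hxS
        · exact (hx hex).elim
        · exact hS x hxS hex
  cases nonempty_fintype X
  obtain ⟨V, hV, hS⟩ := key Finset.univ
  refine ⟨V ++ W, hV.append hG (hW.mono (by omega)), fun B h x hJ hp => ?_⟩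
  obtain ⟨B', h', e', hp'⟩ := hS x (Finset.mem_univ _) ⟨B, h, by push_cast at hJ; omega, hp⟩
  rw [List.foldl_append]
  have h3 := hst B' h' _ (by omega) hp'
  have hp2 := hW.pit hG (by omega) hp'
  have h4 := stable_pos hp2 h3
  have h5 := hp2.bot_le
  intro y hy
  have : C st rk h' (W.foldl st (V.foldl st x)) y := hy.mono (by push_cast; omega)
  have := hp2.1 y this
  omega

theorem claim [Finite X] (hG : Graded st rk up) (J : ℕ) : Claim st rk J := by
  induction J using Nat.strong_induction_on with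
  | _ J ih =>
    rcases J with _ | J
    · refine ⟨fun B h x z hJ hp _ => ?_, [], T.nil, fun B h x _ _ y hy => ?_⟩
      · have := hp.le
        push_cast at hJ
        omega
      · have := hy.1
        push_cast at this
        omega
    · have ih' : ∀ i ≤ J, Claim st rk i := fun i hi => ih i (by omega)
      exact ⟨claim_succ_conn hG ih', claim_succ_stable hG ih'⟩

/-- There is a word which visits all of every pit with at most `K` levels. -/
theorem exists_explore [Finite X] (hG : Graded st rk up) (K : ℕ) :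
    ∃ U, T st rk K U ∧ ∀ (B h : ℤ) (x z : X), h - B + 1 ≤ K → Pit st rk B h x → C st rk h x z →
      ∃ v, v <+: U ∧ v.foldl st x = z ∧ Stay st rk h x v := by
  classical
  induction K with
  | zero =>
    refine ⟨[], T.nil, fun B h x z hJ hp _ => ?_⟩
    have := hp.le
    push_cast at hJ
    omega
  | succ K ih =>
    obtain ⟨U, hU, hvis⟩ := ih
    have key : ∀ S : Finset (X × X), ∃ V, T st rk (K + 1) (U ++ V) ∧ ∀ q ∈ S, ∀ B h : ℤ,
        h - B + 1 = (K : ℤ) + 1 → Pit st rk B h q.1 → C st rk h q.1 q.2 →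
        ∃ v, v <+: (U ++ V) ∧ v.foldl st q.1 = q.2 ∧ Stay st rk h q.1 v := by
      intro S
      induction S using Finset.induction_on with
      | empty => exact ⟨[], by simpa using hU.mono (by omega), fun q hq => by simp at hq⟩
      | insert q0 S hq0 ihS =>
        obtain ⟨V, hV, hS⟩ := ihS
        by_cases hx : ∃ B h : ℤ, h - B + 1 = (K : ℤ) + 1 ∧ Pit st rk B h q0.1 ∧
            C st rk h q0.1 q0.2
        · obtain ⟨B, h, hJ, hp, hc⟩ := hx
          have hJ' : ((K + 1 : ℕ) : ℤ) ≤ h - B + 1 := by push_cast; omega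
          have hp1 := hV.pit hG hJ' hp
          have hc1 := hV.conn hJ' hp
          obtain ⟨s, hs, es⟩ := (claim hG (K + 1)).1 B h _ q0.2 (by push_cast; omega) hp1
            ((hc1.symm hG).trans hc)
          have hT : T st rk (K + 1) (U ++ (V ++ s)) := by
            rw [← List.append_assoc]
            exact hV.append hG hs
          refine ⟨V ++ s, hT, ?_⟩
          intro q hqS B1 h1 e1 hp1' hc1'
          rcases Finset.mem_insert.1 hqS with rfl | hqS
          · refine ⟨U ++ (V ++ s), List.prefix_rfl, ?_, hT B1 h1 _ (by push_cast; omega) hp1'⟩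
            rw [← List.append_assoc, List.foldl_append, es]
          · obtain ⟨v, hv, hv'⟩ := hS q hqS B1 h1 e1 hp1' hc1'
            refine ⟨v, hv.trans ?_, hv'⟩
            rw [← List.append_assoc]
            exact List.prefix_append _ _
        · refine ⟨V, hV, fun q hqS B1 h1 e1 hp1' hc1' => ?_⟩
          rcases Finset.mem_insert.1 hqS with rfl | hqS
          · exact (hx ⟨B1, h1, e1, hp1', hc1'⟩).elim
          · exact hS q hqS B1 h1 e1 hp1' hc1'
    cases nonempty_fintype X
    obtain ⟨V, hV, hS⟩ := key Finset.univ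
    refine ⟨U ++ V, hV, fun B h x z hJ hp hc => ?_⟩
    push_cast at hJ
    rcases lt_or_eq_of_le hJ with hlt | heq
    · obtain ⟨v, hv, hv'⟩ := hvis B h x z (by omega) hp hc
      exact ⟨v, hv.trans (List.prefix_append _ _), hv'⟩
    · exact hS (x, z) (Finset.mem_univ _) B h heq hp hc

end

end Pool.Agent.BR
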