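import Mathlib

/-!
Blind robots in mazes (MP_708370_co): definitions.

Formalisation: helper50.
-/

set_option autoImplicit false

namespace Pool.Agent.BR

/-- The four letters. -/
inductive Dir
  | N | E | S | W
  deriving DecidableEq

/-- The step belonging to a letter. -/
def vec : Dir → ℤ × ℤ
  | .N => (0, 1)
  | .E => (1, 0)
  | .S => (0, -1)
  | .W => (-1, 0)

/-- A board: a set of edges of the square lattice, an edge being an unordered pair of lattice
points. (Only the pairs `s(p, p + vec a)` are ever looked at.) -/
abbrev Board := Set (Sym2 (ℤ × ℤ))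

open Classical in
/-- The robot at `p` reads the letter `a`. -/
noncomputable def move (M : Board) (p : ℤ × ℤ) (a : Dir) : ℤ × ℤ :=
  if s(p, p + vec a) ∈ M then p + vec a else p

/-- The position of the robot after the first `t` letters of the infinite word `w`; it starts
at the origin. -/
noncomputable def robot (M : Board) (w : ℕ → Dir) : ℕ → ℤ × ℤ
  | 0 => (0, 0)
  | t + 1 => move M (robot M w t) (w t)

/-- `q` is in the connected component of `p`. -/
def Joined (M : Board) : ℤ × ℤ → ℤ × ℤ → Prop :=
  Relation.ReflTransGen fun p q => ∃ a, q = p + vec a ∧ s(p, q) ∈ M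

/-- There are no edges between the columns `-k-1` and `-k`, and none between `k` and `k+1`. -/
def Walls (k : ℕ) (M : Board) : Prop :=
  ∀ y : ℤ, s((-(k : ℤ) - 1, y), (-(k : ℤ), y)) ∉ M ∧ s(((k : ℤ), y), ((k : ℤ) + 1, y)) ∉ M

end Pool.Agent.BR
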