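import Pool.Agent.BR.Defs
import Pool.Agent.BR.Abs

/-!
Blind robots (MP_708370_co): from the abstract argument to boards.

Formalisation: helper50.
-/

set_option autoImplicit false

namespace Pool.Agent.BR

theorem vec_snd_le (a : Dir) : (vec a).2 ≤ 1 := by cases a <;> simp [vec]

/-- The opposite letter. -/
def opp : Dir → Dir
  | .N => .S
  | .E => .W
  | .S => .N
  | .W => .E

theorem vec_opp (a : Dir) : vec (opp a) = -vec a := by cases a <;> simp [vec, opp]

theorem vec_ne (a : Dir) : vec a ≠ 0 := by cases a <;> simp [vec, Prod.ext_iff]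

theorem move_pos {M : Board} {p : ℤ × ℤ} {a : Dir} (h : s(p, p + vec a) ∈ M) :
    move M p a = p + vec a := if_pos h

theorem move_neg {M : Board} {p : ℤ × ℤ} {a : Dir} (h : s(p, p + vec a) ∉ M) :
    move M p a = p := if_neg h

theorem move_undo (M : Board) (p : ℤ × ℤ) (a : Dir) : ∃ b, move M (move M p a) b = p := by
  by_cases h : s(p, p + vec a) ∈ M
  · refine ⟨opp a, ?_⟩
    rw [move_pos h, move_pos]
    · rw [vec_opp]; abel
    · rw [vec_opp, add_neg_cancel_right, Sym2.eq_swap]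
      exact h
  · exact ⟨a, by rw [move_neg h, move_neg h]⟩

theorem graded_move (M : Board) : Graded (move M) Prod.snd (fun a => a = Dir.N) where
  up_step p a ha := by
    subst ha
    by_cases h : s(p, p + vec Dir.N) ∈ M
    · right; rw [move_pos h]; simp [vec]
    · left; exact move_neg h
  free_step p a ha := by
    by_cases h : s(p, p + vec a) ∈ M
    · rw [move_pos h]
      cases a
      · exact (ha rfl).elim
      all_goals simp [vec]
    · rw [move_neg h]
  undo p a := move_undo M p a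

/-- The window. -/
noncomputable def box (m K : ℕ) : Finset (ℤ × ℤ) := Finset.Icc (-(m : ℤ)) m ×ˢ Finset.Icc (0 : ℤ) K

theorem mem_box {m K : ℕ} {p : ℤ × ℤ} : p ∈ box m K ↔ |p.1| ≤ m ∧ 0 ≤ p.2 ∧ p.2 ≤ K := by
  unfold box
  rw [Finset.mem_product, Finset.mem_Icc, Finset.mem_Icc, abs_le]

/-- The finite system of all boards and positions in the window. -/
def XT (m K : ℕ) : Type :=
  {q : Board × (ℤ × ℤ) // q.1 ⊆ ((box m K).sym2 : Set (Sym2 (ℤ × ℤ))) ∧ q.2 ∈ box m K}

instance (m K : ℕ) : Finite (XT m K) := by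
  have h1 : {b : Board | b ⊆ ((box m K).sym2 : Set (Sym2 (ℤ × ℤ)))}.Finite :=
    (Finset.finite_toSet _).finite_subsets
  have h2 : ({b : Board | b ⊆ ((box m K).sym2 : Set (Sym2 (ℤ × ℤ)))} ×ˢ
    ((box m K : Finset (ℤ × ℤ)) : Set (ℤ × ℤ))).Finite := h1.prod (Finset.finite_toSet _)
  exact h2.to_subtype

theorem move_mem_box {m K : ℕ} {M : Board} (hM : M ⊆ ((box m K).sym2 : Set (Sym2 (ℤ × ℤ))))
    {p : ℤ × ℤ} (hp : p ∈ box m K) (a : Dir) : move M p a ∈ box m K := by
  by_cases h : s(p, p + vec a) ∈ M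
  · rw [move_pos h]
    have := hM h
    rw [Finset.mem_coe, Finset.mk_mem_sym2_iff] at this
    exact this.2
  · rw [move_neg h]; exact hp

/-- The action on the finite system. -/
noncomputable def stX (m K : ℕ) (x : XT m K) (a : Dir) : XT m K :=
  ⟨(x.1.1, move x.1.1 x.1.2 a), x.2.1, move_mem_box x.2.1 x.2.2 a⟩

/-- The height on the finite system. -/
def rkX (m K : ℕ) (x : XT m K) : ℤ := x.1.2.2

theorem graded_X (m K : ℕ) : Graded (stX m K) (rkX m K) (fun a => a = Dir.N) where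
  up_step x a ha := by
    rcases (graded_move x.1.1).up_step x.1.2 a ha with h | h
    · left
      apply Subtype.ext
      exact Prod.ext rfl h
    · right; exact h
  free_step x a ha := (graded_move x.1.1).free_step x.1.2 a ha
  undo x a := by
    obtain ⟨b, hb⟩ := move_undo x.1.1 x.1.2 a
    exact ⟨b, Subtype.ext (Prod.ext rfl hb)⟩

/-- Connection in a board below the height `h`. -/
abbrev CM (M : Board) (h : ℤ) (u v : ℤ × ℤ) : Prop := C (move M) Prod.snd h u v

/-- The truncated and shifted board. -/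
def tr (m K : ℕ) (B : ℤ) (M : Board) : Board :=
  {e | e ∈ (box m K).sym2 ∧ Sym2.map (fun p : ℤ × ℤ => (p.1, p.2 + B)) e ∈ M}

theorem tr_sub (m K : ℕ) (B : ℤ) (M : Board) :
    tr m K B M ⊆ ((box m K).sym2 : Set (Sym2 (ℤ × ℤ))) := fun _ h => h.1

/-- The shift. -/
def sh (B : ℤ) (p : ℤ × ℤ) : ℤ × ℤ := (p.1, p.2 - B)

theorem sh_inj {B : ℤ} {p q : ℤ × ℤ} (h : sh B p = sh B q) : p = q := by
  unfold sh at h
  rw [Prod.mk.injEq] at h
  exact Prod.ext h.1 (by omega)

theorem sh_add (B : ℤ) (p : ℤ × ℤ) (a : Dir) : sh B p + vec a = sh B (p + vec a) := by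
  unfold sh
  refine Prod.ext rfl ?_
  show p.2 - B + (vec a).2 = p.2 + (vec a).2 - B
  ring

theorem mem_tr {m K : ℕ} {B : ℤ} {M : Board} {p q : ℤ × ℤ} : s(sh B p, sh B q) ∈ tr m K B M ↔
    (sh B p ∈ box m K ∧ sh B q ∈ box m K) ∧ s(p, q) ∈ M := by
  unfold tr
  rw [Set.mem_ofPred_eq, Finset.mk_mem_sym2_iff, Sym2.map_mk]
  have h1 : ((sh B p).1, (sh B p).2 + B) = p := Prod.ext rfl (by show p.2 - B + B = p.2; ring)
  have h2 : ((sh B q).1, (sh B q).2 + B) = q := Prod.ext rfl (by show q.2 - B + B = q.2; ring)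
  simp only [h1, h2]

section

variable {m N : ℕ} {M : Board} {B H : ℤ} {u : ℤ × ℤ}

theorem box_of_C (hN : H - B ≤ N) (hp : Pit (move M) Prod.snd B H u)
    (hm : ∀ v, CM M H u v → |v.1| ≤ m) {v : ℤ × ℤ} (hv : CM M H u v) : sh B v ∈ box m (N + 1) := by
  rw [mem_box]
  refine ⟨hm v hv, ?_, ?_⟩
  · have := hp.1 v hv
    show 0 ≤ v.2 - B
    omega
  · have := hv.right
    show v.2 - B ≤ ((N + 1 : ℕ) : ℤ)
    push_cast
    omega

theorem sim_step (hN : H - B ≤ N) (hp : Pit (move M) Prod.snd B H u)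
    (hm : ∀ v, CM M H u v → |v.1| ≤ m) {v : ℤ × ℤ} (hv : CM M H u v) {x : XT m (N + 1)}
    (hx : x.1 = (tr m (N + 1) B M, sh B v)) (a : Dir)
    (ha : rkX m (N + 1) (stX m (N + 1) x a) ≤ H - B) :
    (stX m (N + 1) x a).1 = (tr m (N + 1) B M, sh B (move M v a)) ∧ (move M v a).2 ≤ H := by
  have hbox := box_of_C hN hp hm hv
  have h1 : (stX m (N + 1) x a).1 = (tr m (N + 1) B M, move (tr m (N + 1) B M) (sh B v) a) := by
    show (x.1.1, move x.1.1 x.1.2 a) = _
    rw [hx]
  by_cases h : s(v, v + vec a) ∈ M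
  · have hb : sh B (v + vec a) ∈ box m (N + 1) := by
      by_cases hr : (v + vec a).2 ≤ H
      · refine box_of_C hN hp hm ?_
        have := hv.step a (by rw [move_pos h]; exact hr)
        rw [move_pos h] at this
        exact this
      · have hv2 := hv.right
        rw [mem_box] at hbox ⊢
        have h3 : (v + vec a).2 = v.2 + (vec a).2 := rfl
        cases a
        · refine ⟨?_, ?_, ?_⟩
          · show |v.1 + 0| ≤ _
            rw [add_zero]; exact hbox.1
          · show 0 ≤ v.2 + 1 - B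
            have := hbox.2.1
            change 0 ≤ v.2 - B at this
            omega
          · show v.2 + 1 - B ≤ ((N + 1 : ℕ) : ℤ)
            push_cast
            omega
        all_goals
          exfalso
          apply hr
          rw [h3]
          simp only [vec]
          omega
    have h2 : move (tr m (N + 1) B M) (sh B v) a = sh B (v + vec a) := by
      rw [← sh_add]
      apply move_pos
      rw [sh_add]
      exact mem_tr.2 ⟨⟨hbox, hb⟩, h⟩
    rw [move_pos h, h1, h2]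
    refine ⟨rfl, ?_⟩
    have h4 : rkX m (N + 1) (stX m (N + 1) x a) = (v + vec a).2 - B := by
      show (stX m (N + 1) x a).1.2.2 = _
      rw [h1, h2]
      rfl
    rw [h4] at ha
    omega
  · have h2 : move (tr m (N + 1) B M) (sh B v) a = sh B v := by
      apply move_neg
      rw [sh_add]
      intro hcon
      exact h (mem_tr.1 hcon).2
    rw [move_neg h, h1, h2]
    exact ⟨rfl, hv.right⟩

theorem sim_run (hN : H - B ≤ N) (hp : Pit (move M) Prod.snd B H u)
    (hm : ∀ v, CM M H u v → |v.1| ≤ m) : ∀ (w : List Dir) (v : ℤ × ℤ) (_ : CM M H u v)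
    (x : XT m (N + 1)) (_ : x.1 = (tr m (N + 1) B M, sh B v))
    (_ : Stay (stX m (N + 1)) (rkX m (N + 1)) (H - B) x w),
    (w.foldl (stX m (N + 1)) x).1 = (tr m (N + 1) B M, sh B (w.foldl (move M) v))
  | [], _, _, _, hx, _ => hx
  | a :: w, v, hv, x, hx, hs => by
    obtain ⟨h1, h2⟩ := sim_step hN hp hm hv hx a (stay_top hs.2)
    exact sim_run hN hp hm w (move M v a) (hv.step a h2) (stX m (N + 1) x a) h1 hs.2

theorem sim_conn (hN : H - B ≤ N) (hp : Pit (move M) Prod.snd B H u)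
    (hm : ∀ v, CM M H u v → |v.1| ≤ m) (x0 : XT m (N + 1))
    (hx0 : x0.1 = (tr m (N + 1) B M, sh B u)) {v : ℤ × ℤ} (hv : CM M H u v) :
    ∀ x : XT m (N + 1), x.1 = (tr m (N + 1) B M, sh B v) →
      C (stX m (N + 1)) (rkX m (N + 1)) (H - B) x0 x := by
  obtain ⟨hu, hv⟩ := hv
  have hrk : ∀ {v : ℤ × ℤ} {x : XT m (N + 1)}, v.2 ≤ H → x.1 = (tr m (N + 1) B M, sh B v) →
      rkX m (N + 1) x ≤ H - B := by
    intro v x hv hx
    show x.1.2.2 ≤ _
    rw [hx]
    show v.2 - B ≤ _
    omega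
  induction hv with
  | refl =>
    intro x hx
    have : x = x0 := Subtype.ext (hx.trans hx0.symm)
    rw [this]
    exact C.refl (hrk hu hx0)
  | @tail y y' hy hyy' ih =>
    intro x hx
    obtain ⟨⟨a, rfl⟩, h1, h2⟩ := hyy'
    have hy' : CM M H u y := ⟨hu, hy⟩
    let z : XT m (N + 1) := ⟨(tr m (N + 1) B M, sh B y), tr_sub _ _ _ _, box_of_C hN hp hm hy'⟩
    have hz := ih z rfl
    have e : stX m (N + 1) z a = x := by
      apply Subtype.ext
      rw [hx]
      show (tr m (N + 1) B M, move (tr m (N + 1) B M) (sh B y) a) = _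
      congr 1
      by_cases h : s(y, y + vec a) ∈ M
      · rw [move_pos h, ← sh_add]
        apply move_pos
        rw [sh_add]
        refine mem_tr.2 ⟨⟨z.2.2, ?_⟩, h⟩
        have := box_of_C hN hp hm (hy'.step a h2)
        rwa [move_pos h] at this
      · rw [move_neg h]
        apply move_neg
        rw [sh_add]
        intro hcon
        exact h (mem_tr.1 hcon).2
    rw [← e]
    refine hz.step a ?_
    rw [e]
    exact hrk h2 hx

end

/-- One word explores all pits of bounded width and depth. -/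
theorem stage (m N : ℕ) : ∃ U : List Dir, ∀ (M : Board) (B H : ℤ) (u d : ℤ × ℤ), H - B ≤ N →
    Pit (move M) Prod.snd B H u → (∀ v, CM M H u v → |v.1| ≤ m) → CM M H u d →
    ∃ v, v <+: U ∧ v.foldl (move M) u = d := by
  obtain ⟨U, _, hU⟩ := exists_explore (graded_X m (N + 1)) (N + 1)
  refine ⟨U, fun M B H u d hN hp hm hd => ?_⟩
  let x0 : XT m (N + 1) := ⟨(tr m (N + 1) B M, sh B u), tr_sub _ _ _ _, box_of_C hN hp hm hp.refl⟩
  let xd : XT m (N + 1) := ⟨(tr m (N + 1) B M, sh B d), tr_sub _ _ _ _, box_of_C hN hp hm hd⟩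
  have hcd := sim_conn hN hp hm x0 rfl hd xd rfl
  have hp0 : Pit (stX m (N + 1)) (rkX m (N + 1)) 0 (H - B) x0 := by
    refine ⟨fun y _ => (mem_box.1 y.2.2).2.1, ?_⟩
    obtain ⟨p0, hp1, hp2⟩ := hp.2
    refine ⟨⟨(tr m (N + 1) B M, sh B p0), tr_sub _ _ _ _, box_of_C hN hp hm hp1⟩,
      sim_conn hN hp hm x0 rfl hp1 _ rfl, ?_⟩
    show p0.2 - B = 0
    rw [hp2, sub_self]
  obtain ⟨v, hv, hv1, hv2⟩ := hU 0 (H - B) x0 xd (by push_cast; omega) hp0 hcd
  refine ⟨v, hv, ?_⟩
  have := sim_run hN hp hm v u hp.refl x0 rfl hv2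
  rw [hv1] at this
  exact sh_inj (congrArg Prod.snd this).symm

end Pool.Agent.BR
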