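import Pool.Agent.BR.Real

/-!
Blind robots (MP_708370_co): the infinite word.

Formalisation: helper50.
-/

set_option autoImplicit false

namespace Pool.Agent.BR

/-- There is an infinite word which contains prescribed blocks; the block may depend on the place
where it occurs. -/
theorem exists_word (G : ℕ → ℕ → List Dir) : ∃ w : ℕ → Dir, ∀ i, ∃ l, i ≤ l ∧
    ∀ (j : ℕ) (hj : j < (G i l).length), w (l + j) = (G i l)[j] := by
  let L : ℕ → List Dir := fun n => Nat.rec [] (fun i l => l ++ G i l.length ++ [Dir.N]) n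
  have hL : ∀ i, L (i + 1) = L i ++ G i (L i).length ++ [Dir.N] := fun i => rfl
  have hlen : ∀ i, i ≤ (L i).length := by
    intro i
    induction i with
    | zero => exact Nat.zero_le _
    | succ i ih =>
      rw [hL, List.length_append, List.length_append, List.length_singleton]
      omega
  have hpre : ∀ i k, L i <+: L (i + k) := by
    intro i k
    induction k with
    | zero => exact List.prefix_rfl
    | succ k ih =>
      refine ih.trans ?_
      rw [← add_assoc, hL, List.append_assoc]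
      exact List.prefix_append _ _
  have hpre' : ∀ {i k}, i ≤ k → L i <+: L k := by
    intro i k h
    obtain ⟨c, rfl⟩ := Nat.exists_eq_add_of_le h
    exact hpre i c
  refine ⟨fun t => (L (t + 1))[t]'(hlen (t + 1)), fun i => ⟨(L i).length, hlen i, ?_⟩⟩
  intro j hj
  have h1 : (L i).length + j < (L (i + 1)).length := by
    rw [hL, List.length_append, List.length_append]
    omega
  have h2 : (L (i + 1))[(L i).length + j]'h1 = (G i (L i).length)[j] := by
    have h3 : (L i ++ G i (L i).length)[(L i).length + j]'(by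
        rw [List.length_append]; omega) = (G i (L i).length)[j] := by
      rw [List.getElem_append_right (by omega)]
      congr 1
      omega
    rw [← h3]
    have : L i ++ G i (L i).length <+: L (i + 1) := by
      rw [hL]
      exact List.prefix_append _ _
    exact (this.getElem _).symm
  rw [← h2]
  show (L ((L i).length + j + 1))[(L i).length + j]'_ = _
  rcases le_total (i + 1) ((L i).length + j + 1) with h | h
  · exact ((hpre' h).getElem _).symm
  · exact (hpre' h).getElem _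

/-- A run through a block. -/
theorem robot_block (M : Board) (w : ℕ → Dir) (l : ℕ) (U : List Dir)
    (hU : ∀ (j : ℕ) (hj : j < U.length), w (l + j) = U[j]) {v : List Dir} (hv : v <+: U) :
    robot M w (l + v.length) = v.foldl (move M) (robot M w l) := by
  induction v using List.reverseRecOn with
  | nil => rfl
  | append_singleton v a ih =>
    have h1 : v <+: U := (List.prefix_append _ _).trans hv
    rw [List.length_append, List.length_singleton, List.foldl_append, ← ih h1, ← add_assoc]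
    show move M _ _ = move M _ _
    congr 1
    have h2 : v.length < U.length := by
      have := hv.length_le
      rw [List.length_append, List.length_singleton] at this
      omega
    rw [hU _ h2]
    have := hv.getElem (i := v.length) (by simp)
    rw [← this]
    simp

theorem robot_succ (M : Board) (w : ℕ → Dir) (t : ℕ) :
    robot M w (t + 1) = move M (robot M w t) (w t) := rfl

theorem move_snd (M : Board) (p : ℤ × ℤ) (a : Dir) : (move M p a).2 ≤ p.2 + 1 ∧
    p.2 - 1 ≤ (move M p a).2 := by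
  by_cases h : s(p, p + vec a) ∈ M
  · rw [move_pos h]
    have h2 : (p + vec a).2 = p.2 + (vec a).2 := rfl
    rw [h2]
    cases a <;> simp only [vec] <;> omega
  · rw [move_neg h]
    omega

theorem robot_CM (M : Board) (w : ℕ → Dir) (t : ℕ) :
    CM M t (0, 0) (robot M w t) ∧ (robot M w t).2 ≤ t := by
  induction t with
  | zero => exact ⟨C.refl (by simp), by simp [robot]⟩
  | succ t ih =>
    have h1 := (move_snd M (robot M w t) (w t)).1
    rw [robot_succ]
    have h2 : (move M (robot M w t) (w t)).2 ≤ ((t + 1 : ℕ) : ℤ) := by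
      push_cast
      omega
    exact ⟨(ih.1.mono (by push_cast; omega)).step _ h2, h2⟩

theorem joined_of_CM {M : Board} {h : ℤ} {p q : ℤ × ℤ} (hc : CM M h p q) : Joined M p q := by
  obtain ⟨_, hc⟩ := hc
  induction hc with
  | refl => exact .refl
  | @tail y y' _ hyy' ih =>
    obtain ⟨⟨a, rfl⟩, _, _⟩ := hyy'
    by_cases h : s(y, y + vec a) ∈ M
    · rw [move_pos h]
      exact ih.tail ⟨a, rfl, h⟩
    · rw [move_neg h]
      exact ih

theorem CM_of_joined {M : Board} {p q : ℤ × ℤ} (hc : Joined M p q) :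
    ∃ n : ℕ, CM M n p q := by
  induction hc with
  | refl => exact ⟨p.2.toNat, C.refl (Int.self_le_toNat _)⟩
  | @tail y y' _ hyy' ih =>
    obtain ⟨n, hn⟩ := ih
    obtain ⟨a, rfl, h⟩ := hyy'
    refine ⟨max n (y + vec a).2.toNat, ?_⟩
    have h1 := (hn.mono (h' := ((max n (y + vec a).2.toNat : ℕ) : ℤ)) (by
      exact_mod_cast le_max_left _ _)).step a (by
        rw [move_pos h]
        refine (Int.self_le_toNat _).trans ?_
        exact_mod_cast le_max_right _ _)
    rwa [move_pos h] at h1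

/-- The stage for boards whose component is bounded below. -/
theorem stage_down (f : ℕ → ℕ) (n l : ℕ) : ∃ U : List Dir, ∀ (M : Board),
    (∀ p, Joined M (0, 0) p → |p.1| ≤ f p.2.natAbs + n) → ∀ B : ℤ,
    (∀ p, Joined M (0, 0) p → B ≤ p.2) → -(n : ℤ) ≤ B → ∀ p0 d, CM M n (0, 0) p0 → p0.2 = B →
    CM M n (0, 0) d → ∀ u, CM M l (0, 0) u → ∃ v, v <+: U ∧ v.foldl (move M) u = d := by
  obtain ⟨U, hU⟩ := stage ((Finset.range (max l n + 1)).sup f + n) (max l n + n)
  refine ⟨U, fun M hf B hB hnB p0 d hp0 hpB hd u hu => ?_⟩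
  have hG := graded_move M
  have hl : (l : ℤ) ≤ ((max l n : ℕ) : ℤ) := by exact_mod_cast le_max_left _ _
  have hn : (n : ℤ) ≤ ((max l n : ℕ) : ℤ) := by exact_mod_cast le_max_right _ _
  have hu' : CM M ((max l n : ℕ) : ℤ) u (0, 0) := (hu.mono hl).symm hG
  refine hU M B ((max l n : ℕ) : ℤ) u d ?_ ⟨?_, ?_⟩ ?_ (hu'.trans (hd.mono hn))
  · push_cast
    push_cast at hn
    omega
  · intro y hy
    exact hB y (joined_of_CM ((hu'.symm hG).trans hy))
  · exact ⟨p0, hu'.trans (hp0.mono hn), hpB⟩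
  · intro v hv
    have hv' : CM M ((max l n : ℕ) : ℤ) (0, 0) v := (hu'.symm hG).trans hv
    have hj := joined_of_CM hv'
    refine (hf v hj).trans ?_
    have h1 := hB v hj
    have h2 := hv'.right
    have h3 : v.2.natAbs < max l n + 1 := by omega
    have h4 : f v.2.natAbs ≤ (Finset.range (max l n + 1)).sup f :=
      Finset.le_sup (Finset.mem_range.2 h3)
    push_cast
    have h5 : (f v.2.natAbs : ℤ) ≤ (((Finset.range (max l n + 1)).sup f : ℕ) : ℤ) := by
      exact_mod_cast h4
    linarith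

/-- The block for the stage. -/
noncomputable def blk (f : ℕ → ℕ) (n l : ℕ) : List Dir := (stage_down f n l).choose

/-- The infinite word contains all the blocks. -/
def Good (f : ℕ → ℕ) (w : ℕ → Dir) : Prop :=
  ∀ n, ∃ l, ∀ (j : ℕ) (hj : j < (blk f n l).length), w (l + j) = (blk f n l)[j]

theorem Good.solves {f : ℕ → ℕ} {w : ℕ → Dir} (hw : Good f w) {M : Board}
    (hf : ∃ c : ℕ, ∀ p, Joined M (0, 0) p → |p.1| ≤ f p.2.natAbs + c)
    (hb : ∃ b : ℤ, ∀ p, Joined M (0, 0) p → b ≤ p.2) {d : ℤ × ℤ} (hd : Joined M (0, 0) d) :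
    ∃ t, robot M w t = d := by
  obtain ⟨c, hf⟩ := hf
  obtain ⟨B, ⟨p0, hp0, hpB⟩, hB⟩ : ∃ B : ℤ, (∃ p, Joined M (0, 0) p ∧ p.2 = B) ∧
      ∀ p, Joined M (0, 0) p → B ≤ p.2 := by
    obtain ⟨b, hb⟩ := hb
    obtain ⟨B, hB1, hB2⟩ := Int.exists_least_of_bdd (P := fun B => ∃ p, Joined M (0, 0) p ∧ p.2 = B)
      ⟨b, fun z ⟨p, hp, e⟩ => e ▸ hb p hp⟩ ⟨0, (0, 0), .refl, rfl⟩
    exact ⟨B, hB1, fun p hp => hB2 p.2 ⟨p, hp, rfl⟩⟩
  obtain ⟨n1, hn1⟩ := CM_of_joined hp0
  obtain ⟨n2, hn2⟩ := CM_of_joined hd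
  obtain ⟨n, hc, hBn, hm1, hm2⟩ : ∃ n : ℕ, c ≤ n ∧ -(n : ℤ) ≤ B ∧ n1 ≤ n ∧ n2 ≤ n :=
    ⟨c + (-B).toNat + n1 + n2, by omega, by push_cast; omega, by omega, by omega⟩
  obtain ⟨l, hl⟩ := hw n
  obtain ⟨v, hv, e⟩ := (stage_down f n l).choose_spec M (fun p hp => (hf p hp).trans (by
    have : (c : ℤ) ≤ n := by exact_mod_cast hc
    linarith)) B hB hBn p0 d (hn1.mono (by exact_mod_cast hm1)) hpB
    (hn2.mono (by exact_mod_cast hm2)) (robot M w l) (robot_CM M w l).1
  exact ⟨l + v.length, by rw [robot_block M w l _ hl hv, e]⟩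

/-! ### Reflection -/

/-- Exchange of north and south. -/
def flip : Dir → Dir
  | .N => .S
  | .E => .E
  | .S => .N
  | .W => .W

/-- The reflection of the plane. -/
def rho (p : ℤ × ℤ) : ℤ × ℤ := (p.1, -p.2)

theorem rho_rho (p : ℤ × ℤ) : rho (rho p) = p := Prod.ext rfl (neg_neg _)

theorem rho_add (p : ℤ × ℤ) (a : Dir) : rho p + vec (flip a) = rho (p + vec a) := by
  cases a <;> simp [rho, vec, flip, Prod.ext_iff] <;> ring

/-- The reflected board. -/
def refl (M : Board) : Board := {e | Sym2.map rho e ∈ M}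

theorem mem_refl {M : Board} {p q : ℤ × ℤ} : s(rho p, rho q) ∈ refl M ↔ s(p, q) ∈ M := by
  show Sym2.map rho s(rho p, rho q) ∈ M ↔ _
  rw [Sym2.map_mk, rho_rho, rho_rho]

theorem move_refl (M : Board) (p : ℤ × ℤ) (a : Dir) :
    move (refl M) (rho p) (flip a) = rho (move M p a) := by
  by_cases h : s(p, p + vec a) ∈ M
  · rw [move_pos h, ← rho_add]
    apply move_pos
    rw [rho_add]
    exact mem_refl.2 h
  · rw [move_neg h]
    apply move_neg
    rw [rho_add]
    intro hcon
    exact h (mem_refl.1 hcon)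

theorem robot_refl (M : Board) (w : ℕ → Dir) (t : ℕ) :
    robot (refl M) (fun t => flip (w t)) t = rho (robot M w t) := by
  induction t with
  | zero => rfl
  | succ t ih => rw [robot_succ, robot_succ, ih, move_refl]

theorem joined_refl {M : Board} {p q : ℤ × ℤ} (h : Joined M p q) :
    Joined (refl M) (rho p) (rho q) := by
  induction h with
  | refl => exact .refl
  | tail _ h2 ih =>
    obtain ⟨a, rfl, h2⟩ := h2
    exact ih.tail ⟨flip a, (rho_add _ _).symm, mem_refl.2 h2⟩

theorem refl_refl (M : Board) : refl (refl M) = M := by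
  ext e
  induction e with
  | _ p q =>
    have := mem_refl (M := refl M) (p := rho p) (q := rho q)
    rw [rho_rho, rho_rho] at this
    rw [this, mem_refl]

theorem joined_refl_iff {M : Board} {p : ℤ × ℤ} (h : Joined (refl M) (0, 0) p) :
    Joined M (0, 0) (rho p) := by
  have := joined_refl h
  rwa [refl_refl] at this

theorem exists_good (f : ℕ → ℕ) : ∃ w : ℕ → Dir, Good f w ∧ Good f (fun t => flip (w t)) := by
  obtain ⟨w, hw⟩ := exists_word (fun i l => if i % 2 = 0 then blk f (i / 2) l else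
    (blk f (i / 2) l).map flip)
  refine ⟨w, fun n => ?_, fun n => ?_⟩
  · obtain ⟨l, _, hl⟩ := hw (2 * n)
    refine ⟨l, fun j hj => ?_⟩
    have e : (if 2 * n % 2 = 0 then blk f (2 * n / 2) l else (blk f (2 * n / 2) l).map flip) =
        blk f n l := by
      rw [if_pos (by omega), show 2 * n / 2 = n by omega]
    have := hl j (by rw [e]; exact hj)
    rw [this]
    simp only [e]
  · obtain ⟨l, _, hl⟩ := hw (2 * n + 1)
    refine ⟨l, fun j hj => ?_⟩
    have e : (if (2 * n + 1) % 2 = 0 then blk f ((2 * n + 1) / 2) l else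
        (blk f ((2 * n + 1) / 2) l).map flip) = (blk f n l).map flip := by
      rw [if_neg (by omega), show (2 * n + 1) / 2 = n by omega]
    have := hl j (by rw [e, List.length_map]; exact hj)
    show flip (w (l + j)) = _
    rw [this]
    simp only [e, List.getElem_map]
    cases (blk f n l)[j] <;> rfl

/-- The word also solves the boards whose component is bounded above. -/
theorem solves_above {f : ℕ → ℕ} {w : ℕ → Dir} (hw : Good f (fun t => flip (w t))) {M : Board}
    (hf : ∃ c : ℕ, ∀ p, Joined M (0, 0) p → |p.1| ≤ f p.2.natAbs + c)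
    (hb : ∃ b : ℤ, ∀ p, Joined M (0, 0) p → p.2 ≤ b) {d : ℤ × ℤ} (hd : Joined M (0, 0) d) :
    ∃ t, robot M w t = d := by
  obtain ⟨c, hf⟩ := hf
  obtain ⟨b, hb⟩ := hb
  obtain ⟨t, ht⟩ := hw.solves (M := refl M) ⟨c, fun p hp => by
    have := hf _ (joined_refl_iff hp)
    show |p.1| ≤ _
    rw [← Int.natAbs_neg p.2]
    exact this⟩ ⟨-b, fun p hp => by
    have := hb _ (joined_refl_iff hp)
    change -p.2 ≤ b at this
    omega⟩ (joined_refl hd)
  refine ⟨t, ?_⟩
  rw [robot_refl] at ht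
  have := congrArg rho ht
  rwa [rho_rho, rho_rho] at this

/-! ### Rows -/

/-- The board without the edges between the rows `y - 1` and `y`. -/
def cut (y : ℤ) (M : Board) : Board := {e | e ∈ M ∧ ¬ ((∃ p ∈ e, p.2 = y - 1) ∧ ∃ p ∈ e, p.2 = y)}

theorem mem_cut {y : ℤ} {M : Board} {p : ℤ × ℤ} (hp : y < p.2) (a : Dir) :
    s(p, p + vec a) ∈ cut y M ↔ s(p, p + vec a) ∈ M := by
  refine ⟨fun h => h.1, fun h => ⟨h, ?_⟩⟩
  rintro ⟨⟨q, hq, h1⟩, _⟩
  rw [Sym2.mem_iff] at hq
  rcases hq with rfl | rfl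
  · omega
  · have h2 : (p + vec a).2 = p.2 + (vec a).2 := rfl
    rw [h2] at h1
    cases a <;> simp only [vec] at h1 <;> omega

theorem move_cut {y : ℤ} {M : Board} {p : ℤ × ℤ} (hp : y < p.2) (a : Dir) :
    move (cut y M) p a = move M p a := by
  by_cases h : s(p, p + vec a) ∈ M
  · rw [move_pos h, move_pos ((mem_cut hp a).2 h)]
  · rw [move_neg h, move_neg (fun h' => h ((mem_cut hp a).1 h'))]

theorem cut_row {y : ℤ} {M : Board} {p q : ℤ × ℤ} (h : Joined (cut y M) p q) (hp : y ≤ p.2) :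
    y ≤ q.2 := by
  induction h with
  | refl => exact hp
  | @tail v v' _ h2 ih =>
    obtain ⟨a, rfl, h2⟩ := h2
    by_contra hcon
    have h3 : (v + vec a).2 = v.2 + (vec a).2 := rfl
    have h4 : v.2 = y ∧ (v + vec a).2 = y - 1 := by
      rw [h3] at hcon ⊢
      cases a <;> simp only [vec] at hcon ⊢ <;> omega
    exact h2.2 ⟨⟨_, Sym2.mem_mk_right _ _, h4.2⟩, ⟨_, Sym2.mem_mk_left _ _, h4.1⟩⟩

theorem cut_joined {y : ℤ} {M : Board} {p q : ℤ × ℤ} (h : Joined (cut y M) p q) :
    Joined M p q := by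
  induction h with
  | refl => exact .refl
  | tail _ h2 ih =>
    obtain ⟨a, rfl, h2⟩ := h2
    exact ih.tail ⟨a, rfl, h2.1⟩

theorem hits_row {y : ℤ} {M : Board} (hy : y ≤ 0) {d : ℤ × ℤ} (hd : Joined M (0, 0) d)
    (hdy : d.2 = y) : ∃ p, Joined (cut y M) (0, 0) p ∧ p.2 = y := by
  have key : ∀ v, Joined M (0, 0) v → (∃ p, Joined (cut y M) (0, 0) p ∧ p.2 = y) ∨
      (Joined (cut y M) (0, 0) v ∧ y < v.2) := by
    intro v hv
    induction hv with
    | refl =>
      rcases eq_or_lt_of_le hy with h | h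
      · exact Or.inl ⟨(0, 0), .refl, h.symm⟩
      · exact Or.inr ⟨.refl, h⟩
    | @tail v v' _ h2 ih =>
      rcases ih with ih | ⟨ih1, ih2⟩
      · exact Or.inl ih
      · obtain ⟨a, rfl, h2⟩ := h2
        have h3 : Joined (cut y M) (0, 0) (v + vec a) := ih1.tail ⟨a, rfl, (mem_cut ih2 a).2 h2⟩
        rcases eq_or_lt_of_le (cut_row h3 hy) with h | h
        · exact Or.inl ⟨_, h3, h.symm⟩
        · exact Or.inr ⟨h3, h⟩
  rcases key d hd with h | ⟨_, h⟩
  · exact h
  · omega

theorem Good.rows_below {f : ℕ → ℕ} {w : ℕ → Dir} (hw : Good f w) {M : Board}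
    (hf : ∃ c : ℕ, ∀ p, Joined M (0, 0) p → |p.1| ≤ f p.2.natAbs + c) {d : ℤ × ℤ}
    (hd : Joined M (0, 0) d) (hy : d.2 ≤ 0) : ∃ t, (robot M w t).2 = d.2 := by
  classical
  obtain ⟨c, hf⟩ := hf
  obtain ⟨p, hp, hpy⟩ := hits_row hy hd rfl
  obtain ⟨t, ht⟩ := hw.solves (M := cut d.2 M) ⟨c, fun p hp => hf p (cut_joined hp)⟩
    ⟨d.2, fun p hp => cut_row hp hy⟩ hp
  have hex : ∃ t, (robot (cut d.2 M) w t).2 = d.2 := ⟨t, by rw [ht, hpy]⟩
  refine ⟨Nat.find hex, ?_⟩
  have hsame : ∀ s ≤ Nat.find hex, robot M w s = robot (cut d.2 M) w s := by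
    intro s
    induction s with
    | zero => exact fun _ => rfl
    | succ s ih =>
      intro hs
      rw [robot_succ, robot_succ, ih (by omega)]
      refine (move_cut ?_ _).symm
      have h1 := Nat.find_min hex (show s < Nat.find hex by omega)
      have h2 : d.2 ≤ (robot (cut d.2 M) w s).2 :=
        cut_row (joined_of_CM (robot_CM (cut d.2 M) w s).1) hy
      exact lt_of_le_of_ne h2 (Ne.symm h1)
  rw [hsame _ le_rfl]
  exact Nat.find_spec hex

theorem rows_above {f : ℕ → ℕ} {w : ℕ → Dir} (hw : Good f (fun t => flip (w t))) {M : Board}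
    (hf : ∃ c : ℕ, ∀ p, Joined M (0, 0) p → |p.1| ≤ f p.2.natAbs + c) {d : ℤ × ℤ}
    (hd : Joined M (0, 0) d) (hy : 0 ≤ d.2) : ∃ t, (robot M w t).2 = d.2 := by
  obtain ⟨c, hf⟩ := hf
  obtain ⟨t, ht⟩ := hw.rows_below (M := refl M) ⟨c, fun p hp => by
    have := hf _ (joined_refl_iff hp)
    show |p.1| ≤ _
    rw [← Int.natAbs_neg p.2]
    exact this⟩ (joined_refl hd) (by show -d.2 ≤ 0; omega)
  refine ⟨t, ?_⟩
  rw [robot_refl] at ht
  change -(robot M w t).2 = -d.2 at ht
  omega

/-- The main theorem on one-sided mazes. -/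
theorem main (f : ℕ → ℕ) : ∃ w : ℕ → Dir, ∀ M : Board,
    (∃ c : ℕ, ∀ p, Joined M (0, 0) p → |p.1| ≤ f p.2.natAbs + c) →
    (((∃ b : ℤ, ∀ p, Joined M (0, 0) p → b ≤ p.2) ∨ (∃ b : ℤ, ∀ p, Joined M (0, 0) p → p.2 ≤ b)) →
      ∀ d, Joined M (0, 0) d → ∃ t, robot M w t = d) ∧
    ∀ d, Joined M (0, 0) d → ∃ t, (robot M w t).2 = d.2 := by
  obtain ⟨w, h1, h2⟩ := exists_good f
  refine ⟨w, fun M hf => ⟨?_, ?_⟩⟩
  · rintro (hb | hb) d hd
    · exact h1.solves hf hb hd
    · exact solves_above h2 hf hb hd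
  · intro d hd
    rcases le_total d.2 0 with h | h
    · exact h1.rows_below hf hd h
    · exact rows_above h2 hf hd h

theorem walls_confined {k : ℕ} {M : Board} (hM : Walls k M) {p : ℤ × ℤ}
    (hp : Joined M (0, 0) p) : |p.1| ≤ k := by
  induction hp with
  | refl => simp
  | @tail v v' _ h2 ih =>
    obtain ⟨a, rfl, h2⟩ := h2
    rw [abs_le] at ih ⊢
    have h3 : (v + vec a).1 = v.1 + (vec a).1 := rfl
    rw [h3]
    cases a
    · simpa [vec] using ih
    · simp only [vec]
      by_contra hcon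
      have h4 : v.1 = k := by omega
      refine (hM v.2).2 ?_
      have e1 : v = ((k : ℤ), v.2) := Prod.ext h4 rfl
      have e2 : v + vec Dir.E = ((k : ℤ) + 1, v.2) := Prod.ext (by simp [vec, h4]) (by simp [vec])
      rw [← e2, ← e1]
      exact h2
    · simpa [vec] using ih
    · simp only [vec]
      by_contra hcon
      have h4 : v.1 = -(k : ℤ) := by omega
      refine (hM v.2).1 ?_
      have e1 : v = (-(k : ℤ), v.2) := Prod.ext h4 rfl
      have e2 : v + vec Dir.W = (-(k : ℤ) - 1, v.2) :=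
        Prod.ext (by simp [vec, h4]; ring) (by simp [vec])
      rw [← e2, ← e1, Sym2.eq_swap]
      exact h2

end Pool.Agent.BR
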